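import Pool.Agent.W872.MX.StmB
import Pool.Agent.W166.MX.PEEL

/-! Part STEP of project MX (helper872): adding one vertex. -/

set_option autoImplicit false

namespace W741.MX.STEP

open Finset W872.MX W166.MX.PEEL

theorem main : W872.MX.PartSTEP := by
  intro W _ _ R T a b c ha hb hc hT
  refine ⟨?_, ?_, ?_⟩
  · intro hna n G S₀ x y hx hy S hS hne h
    classical
    have hx0 : ∀ v ∈ S₀, 0 ≤ x v := fun v hv => by
      have h1 := hx v hv
      have h2 : (0 : ℝ) ≤ (nonblue G S₀ v : ℝ) := Nat.cast_nonneg _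
      linarith
    have hy0 : ∀ v ∈ S₀, 0 ≤ y v := fun v hv => by
      have h1 := hy v hv
      have h2 : (0 : ℝ) ≤ (nonred G S₀ v : ℝ) := Nat.cast_nonneg _
      linarith
    obtain ⟨v0, hv0, hmin⟩ := exists_min_image S x hne
    set S1 := S.filter (fun u => u ≠ v0 ∧ G.blue.Adj v0 u) with hS1
    have hcard : (S.card : ℝ) ≤ (S1.card : ℝ) + x v0 := by
      have h1 := card_step S S₀ hS v0 hv0 (fun u => G.blue.Adj v0 u)
      have h2 := hx v0 (hS hv0)
      have h3 : (nonblue G S₀ v0 : ℝ) =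
          ((S₀.filter (fun u => u ≠ v0 ∧ ¬ G.blue.Adj v0 u)).card : ℝ) := by
        unfold nonblue
        congr!
      rw [h3] at h2
      have h4 : (S1.card : ℝ) = ((S.filter (fun u => u ≠ v0 ∧ G.blue.Adj v0 u)).card : ℝ) := rfl
      linarith
    have hS1S : S1 ⊆ S := filter_subset _ _
    have hab : ∀ v ∈ S, 0 ≤ a * x v ∧ 0 ≤ b * y v := fun v hv =>
      ⟨mul_nonneg ha (hx0 v (hS hv)), mul_nonneg hb (hy0 v (hS hv))⟩
    have hne1 : S1.Nonempty := by
      have h1 := h v0 hv0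
      have h2 := hab v0 hv0
      have h3 : (0 : ℝ) < S1.card := by nlinarith [h2.1, h2.2]
      exact card_pos.1 (by exact_mod_cast h3)
    have hemb := hT n G S₀ x y hx hy S1 (hS1S.trans hS) hne1 (by
      intro v hv
      have h1 := h v (hS1S hv)
      have h2 := hmin v (hS1S hv)
      nlinarith)
    refine emb_insert G S S1 R T c v0 hc hv0 hS1S ?_ ?_ ?_ hemb
    · intro hmem
      exact (mem_filter.1 hmem).2.1 rfl
    · intro s hs hadj
      exact absurd hadj (hna s hs)
    · intro s hs _ u hu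
      exact (mem_filter.1 hu).2.2
  · intro hna n G S₀ x y hx hy S hS hne h
    classical
    have hx0 : ∀ v ∈ S₀, 0 ≤ x v := fun v hv => by
      have h1 := hx v hv
      have h2 : (0 : ℝ) ≤ (nonblue G S₀ v : ℝ) := Nat.cast_nonneg _
      linarith
    have hy0 : ∀ v ∈ S₀, 0 ≤ y v := fun v hv => by
      have h1 := hy v hv
      have h2 : (0 : ℝ) ≤ (nonred G S₀ v : ℝ) := Nat.cast_nonneg _
      linarith
    obtain ⟨v0, hv0, hmin⟩ := exists_min_image S y hne
    set S1 := S.filter (fun u => u ≠ v0 ∧ G.red.Adj v0 u) with hS1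
    have hcard : (S.card : ℝ) ≤ (S1.card : ℝ) + y v0 := by
      have h1 := card_step S S₀ hS v0 hv0 (fun u => G.red.Adj v0 u)
      have h2 := hy v0 (hS hv0)
      have h3 : (nonred G S₀ v0 : ℝ) =
          ((S₀.filter (fun u => u ≠ v0 ∧ ¬ G.red.Adj v0 u)).card : ℝ) := by
        unfold nonred
        congr!
      rw [h3] at h2
      have h4 : (S1.card : ℝ) = ((S.filter (fun u => u ≠ v0 ∧ G.red.Adj v0 u)).card : ℝ) := rfl
      linarith
    have hS1S : S1 ⊆ S := filter_subset _ _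
    have hab : ∀ v ∈ S, 0 ≤ a * x v ∧ 0 ≤ b * y v := fun v hv =>
      ⟨mul_nonneg ha (hx0 v (hS hv)), mul_nonneg hb (hy0 v (hS hv))⟩
    have hne1 : S1.Nonempty := by
      have h1 := h v0 hv0
      have h2 := hab v0 hv0
      have h3 : (0 : ℝ) < S1.card := by nlinarith [h2.1, h2.2]
      exact card_pos.1 (by exact_mod_cast h3)
    have hemb := hT n G S₀ x y hx hy S1 (hS1S.trans hS) hne1 (by
      intro v hv
      have h1 := h v (hS1S hv)
      have h2 := hmin v (hS1S hv)
      nlinarith)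
    refine emb_insert G S S1 R T c v0 hc hv0 hS1S ?_ ?_ ?_ hemb
    · intro hmem
      exact (mem_filter.1 hmem).2.1 rfl
    · intro s hs _ u hu
      exact (mem_filter.1 hu).2.2
    · intro s hs hadj
      exact absurd (hna s hs) hadj
  · intro n G S₀ x y hx hy S hS hne h
    classical
    have hx0 : ∀ v ∈ S₀, 0 ≤ x v := fun v hv => by
      have h1 := hx v hv
      have h2 : (0 : ℝ) ≤ (nonblue G S₀ v : ℝ) := Nat.cast_nonneg _
      linarith
    have hy0 : ∀ v ∈ S₀, 0 ≤ y v := fun v hv => by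
      have h1 := hy v hv
      have h2 : (0 : ℝ) ≤ (nonred G S₀ v : ℝ) := Nat.cast_nonneg _
      linarith
    obtain ⟨v0, hv0, hmin⟩ := exists_min_image S (fun v => x v + y v) hne
    set S1 := S.filter (fun u => u ≠ v0 ∧ (G.blue.Adj v0 u ∧ G.red.Adj v0 u)) with hS1
    have hcard : (S.card : ℝ) ≤ (S1.card : ℝ) + (x v0 + y v0) - 1 := by
      have h1 := card_step S S₀ hS v0 hv0 (fun u => G.blue.Adj v0 u ∧ G.red.Adj v0 u)
      have h2 := hx v0 (hS hv0)
      have h2' := hy v0 (hS hv0)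
      have h3 : (nonblue G S₀ v0 : ℝ) =
          ((S₀.filter (fun u => u ≠ v0 ∧ ¬ G.blue.Adj v0 u)).card : ℝ) := by
        unfold nonblue
        congr!
      have h3' : (nonred G S₀ v0 : ℝ) =
          ((S₀.filter (fun u => u ≠ v0 ∧ ¬ G.red.Adj v0 u)).card : ℝ) := by
        unfold nonred
        congr!
      rw [h3] at h2
      rw [h3'] at h2'
      have h4 : (S1.card : ℝ) =
          ((S.filter (fun u => u ≠ v0 ∧ (G.blue.Adj v0 u ∧ G.red.Adj v0 u))).card : ℝ) := rfl
      have h5 : (S₀.filter (fun u => u ≠ v0 ∧ ¬ (G.blue.Adj v0 u ∧ G.red.Adj v0 u))).card ≤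
          (S₀.filter (fun u => u ≠ v0 ∧ ¬ G.blue.Adj v0 u)).card +
          (S₀.filter (fun u => u ≠ v0 ∧ ¬ G.red.Adj v0 u)).card := by
        refine le_trans (card_le_card ?_) (card_union_le _ _)
        intro u hu
        rw [mem_filter] at hu
        rw [mem_union, mem_filter, mem_filter]
        by_cases hbl : G.blue.Adj v0 u
        · right
          exact ⟨hu.1, hu.2.1, fun hr => hu.2.2 ⟨hbl, hr⟩⟩
        · left
          exact ⟨hu.1, hu.2.1, hbl⟩
      have h6 : ((S₀.filter (fun u => u ≠ v0 ∧ ¬ (G.blue.Adj v0 u ∧ G.red.Adj v0 u))).card : ℝ) ≤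
          ((S₀.filter (fun u => u ≠ v0 ∧ ¬ G.blue.Adj v0 u)).card : ℝ) +
          ((S₀.filter (fun u => u ≠ v0 ∧ ¬ G.red.Adj v0 u)).card : ℝ) := by
        exact_mod_cast h5
      linarith
    have hS1S : S1 ⊆ S := filter_subset _ _
    have hab : ∀ v ∈ S, 0 ≤ a * x v ∧ 0 ≤ b * y v := fun v hv =>
      ⟨mul_nonneg ha (hx0 v (hS hv)), mul_nonneg hb (hy0 v (hS hv))⟩
    have hne1 : S1.Nonempty := by
      have h1 := h v0 hv0
      have h2 := hab v0 hv0
      have h3 : (0 : ℝ) < S1.card := by nlinarith [h2.1, h2.2]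
      exact card_pos.1 (by exact_mod_cast h3)
    have hemb := hT n G S₀ x y hx hy S1 (hS1S.trans hS) hne1 (by
      intro v hv
      have h1 := h v (hS1S hv)
      have h2 := hmin v (hS1S hv)
      nlinarith)
    refine emb_insert G S S1 R T c v0 hc hv0 hS1S ?_ ?_ ?_ hemb
    · intro hmem
      exact (mem_filter.1 hmem).2.1 rfl
    · intro s hs _ u hu
      exact (mem_filter.1 hu).2.2.2
    · intro s hs _ u hu
      exact (mem_filter.1 hu).2.2.1

end W741.MX.STEP
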